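import Mathlib

namespace Pool.Agent.H.MP_81f2fa_al
open MvPolynomial Matrix

abbrev SL2 := Matrix.SpecialLinearGroup (Fin 2) ℂ
abbrev P (R : Type) [CommSemiring R] := MvPolynomial (Fin 3) R

def IsTr (w : FreeGroup (Fin 2)) (f : P ℤ) : Prop :=
  ∀ A B : SL2, Matrix.trace (FreeGroup.lift ![A, B] w).1 =
    aeval ![Matrix.trace A.1, Matrix.trace B.1, Matrix.trace (A * B).1] f

theorem uniq {w : FreeGroup (Fin 2)} {f g : P ℤ} (hf : IsTr w f) (hg : IsTr w g) : g = f := by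
  apply map_injective (algebraMap ℤ ℂ) (RingHom.injective_int _)
  apply MvPolynomial.funext
  intro v
  obtain ⟨s, hs⟩ := IsAlgClosed.exists_root (Polynomial.X ^ 2 - Polynomial.C (v 2) * Polynomial.X + 1 :
    Polynomial ℂ) (by
      have : (Polynomial.X ^ 2 - Polynomial.C (v 2) * Polynomial.X + 1 : Polynomial ℂ).degree = 2 := by
        compute_degree!
      rw [this]; norm_num)
  have hs' : s ^ 2 - v 2 * s + 1 = 0 := by simpa using hs
  let A : SL2 := ⟨!![v 0, -1; 1, 0], by simp [det_fin_two]⟩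
  let B : SL2 := ⟨!![0, s; -(v 2 - s), v 1], by simp [det_fin_two]; linear_combination -hs'⟩
  have h : ![Matrix.trace A.1, Matrix.trace B.1, Matrix.trace (A * B).1] = v := by
    funext i
    fin_cases i <;> simp [A, B, trace_fin_two]
  have h1 := (hg A B).symm.trans (hf A B)
  rw [h] at h1
  rw [eval_map, eval_map]
  exact h1

section
variable {R : Type} [CommSemiring R]
def ab (s : R) : ℕ → R × R
  | 0 => (0, 1)
  | m + 1 => ((s + 1) * (ab s m).1 + (ab s m).2, s * (ab s m).1 + (ab s m).2)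

theorem ab_map {S F : Type} [CommSemiring S] [FunLike F R S] [RingHomClass F R S] (φ : F) (s : R)
    (m : ℕ) : ab (φ s) m = (φ (ab s m).1, φ (ab s m).2) := by
  induction m with
  | zero => simp [ab]
  | succ m ih => simp [ab, ih]

def rc (x e f0 f1 : R) : ℕ → R
  | 0 => f0
  | 1 => f1
  | r + 2 => x * rc x e f0 f1 (r + 1) + e * rc x e f0 f1 r

def Le (p q : R) : Prop := ∃ r, q = p + r
theorem Le.rfl {p : R} : Le p p := ⟨0, by simp⟩
theorem Le.trans {p q r : R} (h : Le p q) (h' : Le q r) : Le p r := by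
  obtain ⟨a, rfl⟩ := h; obtain ⟨b, rfl⟩ := h'; exact ⟨a + b, by ring⟩
theorem Le.mul {p q p' q' : R} (h : Le p q) (h' : Le p' q') : Le (p * p') (q * q') := by
  obtain ⟨a, rfl⟩ := h; obtain ⟨b, rfl⟩ := h'; exact ⟨p * b + a * p' + a * b, by ring⟩
theorem Le.pow {p q : R} (h : Le p q) (n : ℕ) : Le (p ^ n) (q ^ n) := by
  induction n with
  | zero => simpa using Le.rfl
  | succ n ih => rw [pow_succ, pow_succ]; exact ih.mul h
theorem Le.pow' {p s : R} (h : Le p (s + 1)) {a n : ℕ} (ha : a ≤ n) : Le (p ^ a) ((s + 1) ^ n) := by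
  obtain ⟨k, rfl⟩ := Nat.exists_eq_add_of_le ha
  have h1 : Le (1 : R) (s + 1) := ⟨s, by ring⟩
  simpa [pow_add] using (h.pow a).mul (h1.pow k)
theorem ab_ge (s : R) (m : ℕ) : Le ((s + 1) ^ m) (ab s (m + 1)).1 := by
  induction m with
  | zero => simpa [ab] using Le.rfl
  | succ m ih =>
    rw [pow_succ']
    exact (Le.rfl.mul ih).trans ⟨_, _root_.rfl⟩
theorem rc_ge (x f0 f1 : R) (r : ℕ) : Le (x ^ r * f1) (rc x 1 f0 f1 (r + 1)) := by
  induction r with
  | zero => simpa [rc] using Le.rfl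
  | succ r ih =>
    rw [pow_succ', mul_assoc]
    exact (Le.rfl.mul ih).trans ⟨_, _root_.rfl⟩
end

noncomputable def sZ : P ℤ := X 0 * X 1 * X 2 - X 0 ^ 2 - X 1 ^ 2
noncomputable def sN : P ℕ := X 0 * X 1 * X 2 + X 0 ^ 2 + X 1 ^ 2
noncomputable def fZ (m r : ℕ) : P ℤ := rc (X 0) (-1) ((ab sZ m).1 * sZ + (ab sZ m).2 * 2)
  ((ab sZ m).1 * (X 0 * sZ - X 1 * X 2 + 2 * X 0) + (ab sZ m).2 * X 0) r
noncomputable def fN (m r : ℕ) : P ℕ := rc (X 0) 1 ((ab sN m).1 * sN + (ab sN m).2 * 2)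
  ((ab sN m).1 * (X 0 * sN + X 1 * X 2 + 2 * X 0) + (ab sN m).2 * X 0) r

noncomputable def tw : P ℤ →ₐ[ℤ] P ℂ := aeval ![C Complex.I * X 0, C Complex.I * X 1, C (-1) * X 2]

theorem tw_coeff (f : P ℤ) (d : Fin 3 →₀ ℕ) :
    coeff d (tw f) = (Complex.I ^ d 0 * Complex.I ^ d 1 * (-1) ^ d 2) * (coeff d f : ℤ) := by
  induction f using MvPolynomial.induction_on' with
  | monomial e a =>
    have : tw (monomial e a) =
        monomial e ((Complex.I ^ e 0 * Complex.I ^ e 1 * (-1) ^ e 2) * (a : ℂ)) := by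
      rw [tw, aeval_monomial, monomial_eq, Finsupp.prod_fintype _ _ (by simp),
        Finsupp.prod_fintype _ _ (by simp)]
      simp [Fin.prod_univ_three, mul_pow]
      ring
    rw [this, coeff_monomial, coeff_monomial]
    split_ifs with h
    · rw [h]
    · simp
  | add p q hp hq => simp [hp, hq, mul_add]

theorem tw_f (m r : ℕ) : tw (fZ m r) = C (Complex.I ^ r) * map (Nat.castRingHom ℂ) (fN m r) := by
  have hI : (C Complex.I : P ℂ) * C Complex.I = -1 := by rw [← C_mul]; simp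
  have h0 : tw (X 0) = C Complex.I * X 0 := by simp [tw]
  have h1 : tw (X 1) = C Complex.I * X 1 := by simp [tw]
  have h2 : tw (X 2) = -X 2 := by simp [tw]
  have hs : tw sZ = map (Nat.castRingHom ℂ) sN := by
    simp only [sZ, sN, map_sub, map_add, map_mul, map_pow, h0, h1, h2, map_X]
    linear_combination (-X 0 * X 1 * X 2 - X 0 ^ 2 - X 1 ^ 2 : P ℂ) * hI
  have ha := (ab_map tw sZ m).symm.trans (hs ▸ ab_map (map (Nat.castRingHom ℂ)) sN m)
  have ha1 := congrArg Prod.fst ha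
  have ha2 := congrArg Prod.snd ha
  simp only at ha1 ha2
  unfold fZ fN
  induction r using Nat.twoStepInduction with
  | zero => simp only [rc, map_add, map_mul, ha1, ha2, hs, map_ofNat, pow_zero, map_one, one_mul]
  | one =>
    simp only [rc, map_add, map_sub, map_mul, ha1, ha2, hs, map_ofNat, pow_one, h0, h1, h2, map_X]
    ring
  | more r ih1 ih2 =>
    rw [rc, rc, map_add, map_mul, map_mul, ih1, ih2, h0]
    simp only [map_add, map_mul, map_X, map_neg, map_one, pow_succ]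
    linear_combination (-(C (Complex.I ^ r)) * map (Nat.castRingHom ℂ) (rc (X 0) 1
      ((ab sN m).1 * sN + (ab sN m).2 * 2)
      ((ab sN m).1 * (X 0 * sN + X 1 * X 2 + 2 * X 0) + (ab sN m).2 * X 0) r) : P ℂ) * hI

theorem coeff_abs (m r : ℕ) (d : Fin 3 →₀ ℕ) : (coeff d (fZ m r)).natAbs = coeff d (fN m r) := by
  have h := congrArg (fun p => ‖coeff d p‖) (tw_f m r)
  simp only [tw_coeff, coeff_C_mul, coeff_map, norm_mul, norm_pow, Complex.norm_I, norm_neg,
    norm_one, one_pow, one_mul, Complex.norm_intCast, Nat.coe_castRingHom,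
    Complex.norm_natCast] at h
  have : ((coeff d (fZ m r)).natAbs : ℝ) = coeff d (fN m r) := by rw [← h]; simp
  exact_mod_cast this

noncomputable def ex (k a b c : ℕ) : Fin 3 →₀ ℕ :=
  Finsupp.equivFunOnFinite.symm ![k + a + 2 * b, a + 2 * c, a]

theorem coeff_ge (l e r a b c : ℕ) (ha : a ≤ l) (hb : b ≤ l) (hc : c ≤ l) :
    2 ^ l ≤ coeff (ex (r + 1) (l + a) b c) (fN (5 * l + e + 1) (r + 1)) := by
  have hu : Le (X 0 * X 1 * X 2) (sN + 1) := ⟨X 0 ^ 2 + X 1 ^ 2 + 1, by unfold sN; ring⟩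
  have hv : Le (X 0 ^ 2) (sN + 1) := ⟨X 0 * X 1 * X 2 + X 1 ^ 2 + 1, by unfold sN; ring⟩
  have hw : Le (X 1 ^ 2) (sN + 1) := ⟨X 0 * X 1 * X 2 + X 0 ^ 2 + 1, by unfold sN; ring⟩
  have h2 : Le (2 * (X 0 * X 1 * X 2)) ((sN + 1) ^ 2) :=
    ⟨sN ^ 2 + 2 * (X 0 ^ 2 + X 1 ^ 2) + 1, by unfold sN; ring⟩
  have h3 := (((h2.pow l).mul (hu.pow' ha)).mul (hv.pow' hb)).mul
    (hw.pow' (hc.trans (Nat.le_add_right l e)))
  have h4 : ((sN + 1) ^ 2) ^ l * (sN + 1) ^ l * (sN + 1) ^ l * (sN + 1) ^ (l + e) =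
      (sN + 1) ^ (5 * l + e) := by
    generalize sN + 1 = t; ring
  rw [h4] at h3
  have h5 := h3.trans (ab_ge sN _)
  have h6 : Le (X 0 ^ r * ((ab sN (5 * l + e + 1)).1 * X 0)) (fN (5 * l + e + 1) (r + 1)) :=
    (Le.rfl.mul ⟨(ab sN (5 * l + e + 1)).1 * (X 0 * sN + X 1 * X 2 + X 0) +
      (ab sN (5 * l + e + 1)).2 * X 0, by ring⟩).trans (rc_ge _ _ _ r)
  obtain ⟨q, hq⟩ := (Le.rfl.mul (h5.mul Le.rfl)).trans h6
  have h7 : (X 0 ^ r * ((2 * (X 0 * X 1 * X 2)) ^ l * (X 0 * X 1 * X 2) ^ a * (X 0 ^ 2) ^ b *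
      (X 1 ^ 2) ^ c * X 0) : P ℕ) = monomial (ex (r + 1) (l + a) b c) (2 ^ l) := by
    rw [monomial_eq, Finsupp.prod_fintype _ _ (by simp)]
    simp [Fin.prod_univ_three, ex]
    ring
  rw [hq, h7, coeff_add, coeff_monomial, if_pos rfl]
  exact Nat.le_add_right _ _

theorem ch (A : SL2) : A.1 * A.1 = Matrix.trace A.1 • A.1 - 1 := by
  have h := A.2
  rw [det_fin_two] at h
  ext i j
  fin_cases i <;> fin_cases j <;> simp [mul_apply, Fin.sum_univ_two, trace_fin_two] <;>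
    first | ring1 | linear_combination -h

theorem tr_f (m r : ℕ) (A B : SL2) : Matrix.trace ((A * A * B * B) ^ m * A ^ r).1 =
    aeval ![Matrix.trace A.1, Matrix.trace B.1, Matrix.trace (A * B).1] (fZ m r) := by
  set φ : P ℤ →ₐ[ℤ] ℂ := aeval ![Matrix.trace A.1, Matrix.trace B.1, Matrix.trace (A * B).1] with hφ
  have h0 : φ (X 0) = Matrix.trace A.1 := by simp [hφ]
  have h1 : φ (X 1) = Matrix.trace B.1 := by simp [hφ]
  have h2 : φ (X 2) = Matrix.trace (A.1 * B.1) := by simp [hφ]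
  have hA := ch A
  have hB := ch B
  have hC := ch (A * A * B * B)
  have t1 : Matrix.trace (A * A * B * B).1 = φ sZ + 2 := by
    change Matrix.trace (A.1 * A.1 * B.1 * B.1) = _
    rw [mul_assoc, hA, hB]
    simp only [sZ, map_sub, map_mul, map_pow, h0, h1, h2, sub_mul, mul_sub, smul_mul_assoc,
      mul_smul_comm, trace_sub, trace_smul, one_mul, mul_one, trace_one, smul_eq_mul]
    simp; ring
  have t2 : Matrix.trace ((A * A * B * B).1 * A.1) =
      φ (X 0 * sZ - X 1 * X 2 + 2 * X 0) + φ (X 0) := by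
    change Matrix.trace (A.1 * A.1 * B.1 * B.1 * A.1) = _
    rw [trace_mul_comm, mul_assoc (A.1 * A.1), ← mul_assoc, hB, hA, mul_sub A.1, mul_smul_comm, hA]
    simp only [sZ, map_sub, map_add, map_mul, map_pow, map_ofNat, h0, h1, h2, sub_mul, mul_sub,
      smul_mul_assoc, smul_sub,
      mul_smul_comm, trace_sub, trace_smul, one_mul, mul_one, trace_one, smul_eq_mul]
    simp; ring
  rw [t1] at hC
  have hm : ((A * A * B * B) ^ m).1 = φ (ab sZ m).1 • ((A * A * B * B).1 - 1) +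
      φ (ab sZ m).2 • (1 : Matrix (Fin 2) (Fin 2) ℂ) := by
    induction m with
    | zero => simp [ab]
    | succ m ih =>
      rw [pow_succ, Matrix.SpecialLinearGroup.coe_mul, ih, add_mul, smul_mul_assoc, sub_mul, hC]
      simp only [ab, map_add, map_mul, map_one, smul_mul_assoc, one_mul]
      module
  unfold fZ
  induction r using Nat.twoStepInduction with
  | zero =>
    rw [pow_zero, mul_one, hm]
    simp only [rc, map_add, map_mul, map_ofNat, trace_add, trace_smul, trace_sub, t1, trace_one]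
    simp
  | one =>
    rw [pow_one, Matrix.SpecialLinearGroup.coe_mul, hm, rc, map_add, map_mul, map_mul]
    simp only [add_mul, sub_mul, smul_mul_assoc, one_mul, trace_add, trace_smul, trace_sub, t2,
      ← h0, smul_eq_mul]
    ring
  | more r ih1 ih2 =>
    rw [rc, map_add, map_mul, map_mul, ← ih1, ← ih2, h0, pow_succ, pow_succ, ← mul_assoc,
      ← mul_assoc, Matrix.SpecialLinearGroup.coe_mul, Matrix.SpecialLinearGroup.coe_mul, mul_assoc,
      hA, mul_sub, mul_smul_comm, trace_sub, trace_smul]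
    simp [sub_eq_add_neg]

def wd (m r : ℕ) : List (Fin 2 × Bool) :=
  (List.replicate m [(0, true), (0, true), (1, true), (1, true)]).flatten ++
    List.replicate r (0, true)

theorem wd_len (m r : ℕ) : (wd m r).length = 4 * m + r := by simp [wd, mul_comm]

theorem wd_pos (m r : ℕ) : ∀ x ∈ wd m r, x.2 = true := by
  intro x hx
  simp only [wd, List.mem_append, List.mem_flatten, List.mem_replicate] at hx
  rcases hx with ⟨l, ⟨-, rfl⟩, hx⟩ | ⟨-, rfl⟩
  · simp at hx; rcases hx with rfl | rfl <;> rfl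
  · rfl

theorem cyc {L : List (Fin 2 × Bool)} (h : ∀ x ∈ L, x.2 = true) :
    FreeGroup.IsCyclicallyReduced L := by
  refine ⟨?_, fun a ha b hb _ => ?_⟩
  · exact List.Pairwise.isChain (List.pairwise_of_forall_mem_list fun a ha b hb _ => by
      rw [h a ha, h b hb])
  · rw [h a (List.mem_of_getLast? ha), h b (List.mem_of_head? hb)]

theorem wd_tr (m r : ℕ) : IsTr (FreeGroup.mk (wd m r)) (fZ m r) := by
  intro A B
  rw [← tr_f, FreeGroup.lift_mk]
  simp [wd, List.map_flatten, List.prod_flatten, mul_assoc]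

theorem main (n : ℕ) (hn : 8 ≤ n) : ∃ L : List (Fin 2 × Bool), FreeGroup.IsCyclicallyReduced L ∧
    L.length = n ∧ ∃ f : P ℤ, IsTr (FreeGroup.mk L) f ∧ ∃ l : ℕ, n ≤ 40 * (l + 1) ∧
      ∃ T : Finset (Fin 3 →₀ ℕ), T.card = (l + 1) ^ 3 ∧ ∀ d ∈ T, 2 ^ l ≤ (coeff d f).natAbs := by
  classical
  obtain ⟨l, e, r, he, hr, rfl⟩ : ∃ l e r, e < 5 ∧ r < 4 ∧ n = 4 * (5 * l + e + 1) + (r + 1) :=
    ⟨(n - 5) / 20, (n - 5) % 20 / 4, (n - 5) % 4, by omega, by omega, by omega⟩
  refine ⟨wd _ _, cyc (wd_pos _ _), wd_len _ _, _, wd_tr _ _, l, by omega,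
    (Finset.range (l + 1) ×ˢ Finset.range (l + 1) ×ˢ Finset.range (l + 1)).image
      fun t => ex (r + 1) (l + t.1) t.2.1 t.2.2, ?_, ?_⟩
  · rw [Finset.card_image_of_injective]
    · simp; ring
    · rintro ⟨a, b, c⟩ ⟨a', b', c'⟩ h
      have h0 := DFunLike.congr_fun h 0
      have h1 := DFunLike.congr_fun h 1
      have h2 := DFunLike.congr_fun h 2
      simp [ex] at h0 h1 h2
      simp only [Prod.mk.injEq]
      omega
  · intro d hd
    obtain ⟨⟨a, b, c⟩, ht, rfl⟩ := Finset.mem_image.1 hd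
    simp only [Finset.mem_product, Finset.mem_range] at ht
    rw [coeff_abs]
    exact coeff_ge l e r a b c (by omega) (by omega) (by omega)

end Pool.Agent.H.MP_81f2fa_al
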